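import Pool.Agent.Q7.LK.Stm2

/-!
Project LK (helper7), job AUC: formal properties of `AU`.
-/

set_option autoImplicit false

namespace Pool.Agent.Q129.LK

open NumberField IsDedekindDomain Filter Topology Finset Polynomial
open Pool.Agent.Q7.LK

section nrm

variable {K : Type} [Field K] {p : ℕ}

theorem monX (hp : p ≠ 0) (D : K) : (X ^ p - C D : K[X]).Monic := monic_X_pow_sub_C D hp

theorem norm_const (hp : p ≠ 0) (D s : K) :
    Algebra.norm K (algebraMap K (AdjoinRoot (X ^ p - C D)) s) = s ^ p := by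
  rw [Algebra.norm_algebraMap_of_basis (AdjoinRoot.powerBasis' (monX hp D)).basis, Fintype.card_fin,
    AdjoinRoot.powerBasis'_dim, natDegree_X_pow_sub_C]

theorem norm_root (hp : Odd p) (D : K) :
    Algebra.norm K (AdjoinRoot.root (X ^ p - C D)) = D := by
  have h0 : p ≠ 0 := hp.pos.ne'
  have h1 := Algebra.PowerBasis.norm_gen_eq_coeff_zero_minpoly (AdjoinRoot.powerBasis' (monX h0 D))
  rw [AdjoinRoot.powerBasis'_gen, AdjoinRoot.powerBasis'_dim, natDegree_X_pow_sub_C,
    AdjoinRoot.minpoly_root (monX h0 D).ne_zero, (monX h0 D).leadingCoeff, inv_one, C_1, mul_one] at h1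
  rw [h1, hp.neg_one_pow]
  simp [coeff_X_pow, Ne.symm h0]

/-- the map `ρ ↦ c ρ'` -/
noncomputable def hm (D c E : K) (h : E * c ^ p = D) :
    AdjoinRoot (X ^ p - C D) →ₐ[K] AdjoinRoot (X ^ p - C E) :=
  AdjoinRoot.liftAlgHom _ (Algebra.ofId K _) (algebraMap K _ c * AdjoinRoot.root (X ^ p - C E)) (by
    have h1 : AdjoinRoot.root (X ^ p - C E : K[X]) ^ p = algebraMap K _ E := by
      have h2 := AdjoinRoot.eval₂_root (X ^ p - C E : K[X])
      rw [eval₂_sub, eval₂_X_pow, eval₂_C, sub_eq_zero] at h2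
      exact h2
    rw [eval₂_sub, eval₂_X_pow, eval₂_C, mul_pow, h1, ← h, sub_eq_zero]
    show _ = algebraMap K _ (E * c ^ p)
    rw [map_mul, map_pow, mul_comm])

theorem hm_root (D c E : K) (h : E * c ^ p = D) :
    hm D c E h (AdjoinRoot.root (X ^ p - C D)) = algebraMap K _ c * AdjoinRoot.root (X ^ p - C E) := by
  unfold hm
  rw [AdjoinRoot.liftAlgHom_root]

theorem norm_trans' {D c E : K} (hc : c ≠ 0) (h1 : E * c⁻¹ ^ p = D) (h2 : D * c ^ p = E)
    (t : AdjoinRoot (X ^ p - C D)) :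
    ∃ t' : AdjoinRoot (X ^ p - C E), Algebra.norm K t' = Algebra.norm K t := by
  let e : AdjoinRoot (X ^ p - C D) ≃ₐ[K] AdjoinRoot (X ^ p - C E) :=
    AlgEquiv.ofAlgHom (hm D c⁻¹ E h1) (hm E c D h2)
      (by
        apply AdjoinRoot.algHom_ext
        rw [AlgHom.comp_apply, AlgHom.id_apply, hm_root, map_mul, AlgHom.commutes, hm_root, ← mul_assoc,
          ← map_mul, mul_inv_cancel₀ hc, map_one, one_mul])
      (by
        apply AdjoinRoot.algHom_ext
        rw [AlgHom.comp_apply, AlgHom.id_apply, hm_root, map_mul, AlgHom.commutes, hm_root, ← mul_assoc,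
          ← map_mul, inv_mul_cancel₀ hc, map_one, one_mul])
  exact ⟨e t, Algebra.norm_eq_of_algEquiv e t⟩

theorem norm_trans (D c : K) (hc : c ≠ 0) (t : AdjoinRoot (X ^ p - C D)) :
    ∃ t' : AdjoinRoot (X ^ p - C (D * c ^ p)), Algebra.norm K t' = Algebra.norm K t :=
  norm_trans' hc (by rw [mul_assoc, ← mul_pow, mul_inv_cancel₀ hc, one_pow, mul_one]) rfl t

end nrm

section coe

variable {F : Type} [Field F] [NumberField F] (v : HeightOneSpectrum (𝓞 F))

theorem coe_eq (a : F) : (a : v.adicCompletion F) = algebraMap F (v.adicCompletion F) a :=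
  (congrFun (HeightOneSpectrum.algebraMap_adicCompletion (𝓞 F) F v) a).symm

theorem coe_mul (a b : F) : ((a * b : F) : v.adicCompletion F) = (a : v.adicCompletion F) * (b : v.adicCompletion F) := by
  rw [coe_eq, coe_eq, coe_eq, map_mul]

theorem coe_pow (a : F) (n : ℕ) : ((a ^ n : F) : v.adicCompletion F) = (a : v.adicCompletion F) ^ n := by
  rw [coe_eq, coe_eq, map_pow]

theorem coe_zero_iff {a : F} : (a : v.adicCompletion F) = 0 ↔ a = 0 := by
  rw [coe_eq, map_eq_zero]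

end coe

theorem auc : S_BAS → S_CPL → S_AUC := by
  intro hB hC p hp hp2 F _ _ v D hD
  obtain ⟨b1, b2, b3, b4, b5, -, -⟩ := hB p F v
  have hodd : Odd p := hp.out.odd_of_ne_two hp2
  have h0 : p ≠ 0 := hp.out.ne_zero
  refine ⟨?_, ?_, ?_, ?_⟩
  · rintro a b ⟨ha, h1, h2⟩ hb
    obtain ⟨hb0, s, hs⟩ := (hC p F v b).1 hb
    refine ⟨mul_ne_zero ha hb0, fun hD' => ?_, fun hD' => ?_⟩
    · obtain ⟨t, ht⟩ := h1 hD'
      refine ⟨t * algebraMap _ _ s, ?_⟩
      rw [map_mul, ht, norm_const h0, ← hs, coe_mul]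
    · rw [b5 a b ha hb0, h2 hD', (b1 b hb).2, add_zero]
  · rintro n a hn ⟨ha, h1, h2⟩
    obtain ⟨hn0, s, hs⟩ := (hC p F v n).1 hn
    refine ⟨ha, fun hD' => ?_, fun hD' => ?_⟩
    · have hD2 : ¬ Lpw p v D := fun h => hD' (b2 _ _ h hn)
      obtain ⟨t, ht⟩ := h1 hD2
      have hs0 : s ≠ 0 := by
        rintro rfl
        rw [zero_pow h0] at hs
        exact hn0 ((coe_zero_iff v).1 hs)
      obtain ⟨t', ht'⟩ := norm_trans (p := p) (D : v.adicCompletion F) s hs0 t
      have e : ((D * n : F) : v.adicCompletion F) = (D : v.adicCompletion F) * s ^ p := by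
        rw [← hs, coe_mul]
      rw [e]
      exact ⟨t', ht'.trans ht⟩
    · apply h2
      have h3 := b2 _ _ hD' (b4 _ hn)
      rwa [mul_assoc, mul_inv_cancel₀ hn0, mul_one] at h3
  · rintro a ⟨ha, h1, h2⟩
    refine ⟨mul_ne_zero ha hD, fun hD' => ?_, fun hD' => ?_⟩
    · obtain ⟨t, ht⟩ := h1 hD'
      refine ⟨t * AdjoinRoot.root _, ?_⟩
      rw [map_mul, ht, norm_root hodd, coe_mul]
    · rw [b5 a D ha hD, h2 hD', (b1 D hD').2, add_zero]
  · rintro a ⟨ha, h1, h2⟩ n
    refine ⟨pow_ne_zero n ha, fun hD' => ?_, fun hD' => ?_⟩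
    · obtain ⟨t, ht⟩ := h1 hD'
      refine ⟨t ^ n, ?_⟩
      rw [map_pow, ht, coe_pow]
    · induction n with
      | zero =>
        rw [pow_zero]
        have h3 := b3 1 one_ne_zero
        rw [one_pow] at h3
        exact (b1 1 h3).2
      | succ n ih => rw [pow_succ, b5 _ _ (pow_ne_zero n ha) ha, ih, h2 hD', add_zero]

end Pool.Agent.Q129.LK
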