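import Pool.Agent.Q224.LK.CR1
import Pool.Agent.Q7.LK.Stm2

/-!
Project LK (helper7), job CR1B: a unit of relative norm `1` from a relation (the proof of helper224 for `S_CR1`).
-/

set_option autoImplicit false

namespace Pool.Agent.Q129.LK

open NumberField IsDedekindDomain Filter Topology Finset
open Pool.Agent.Q7.LK Pool.Agent.Q224.LK

theorem cr1b : S_LA → S_CR1B := by
  intro hLA p hp hp2 F L _ _ _ _ _ ζ d hζ hK hd I hI hout σ hσ
  obtain ⟨n, θ, h, hh, hθN, hθind, hgen, a, ha, hRel⟩ := hout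
  set J := I.map (algebraMap (𝓞 F) (𝓞 L)) with hJ
  -- the norm one subgroup
  let ν : (𝓞 L)ˣ →* Fˣ :=
    Units.map ((Algebra.norm F : L →* F).comp (algebraMap (𝓞 L) L : 𝓞 L →* L))
  have hν : ∀ u : (𝓞 L)ˣ, Algebra.norm F ((u : 𝓞 L) : L) = 1 ↔ u ∈ ν.ker := by
    intro u
    rw [MonoidHom.mem_ker, Units.ext_iff]
    rfl
  have hevN : ∀ m : Fin n → ℤ, ev θ m ∈ ν.ker := fun m =>
    Subgroup.prod_mem _ fun i _ => Subgroup.zpow_mem _ ((hν _).1 (hθN i)) _
  have hgN : ∀ u : (𝓞 L)ˣ, Algebra.norm F ((u : 𝓞 L) : L) = 1 → Algebra.norm F (((gU σ u : (𝓞 L)ˣ) : 𝓞 L) : L) = 1 := by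
    intro u hu
    rw [gU_coe, norm_conj hK.deg hσ, hu]
  -- the matrix of `σ`
  choose A hA using fun i => hgen (gU σ (θ i)) (hgN _ (hθN i))
  have hA' : ∀ i, gU σ (θ i) ^ h = ev θ (A i) ^ h := hA
  have hstep : ∀ m : Fin n → ℤ, gU σ (ev θ m) ^ h = ev θ (Matrix.vecMul m (Matrix.of A)) ^ h := by
    intro m
    rw [← ev_vec, ev_map]
    unfold ev
    rw [← Finset.prod_pow, ← Finset.prod_pow]
    refine Finset.prod_congr rfl fun i _ => ?_
    have := hA i
    rw [← zpow_natCast (gU σ (θ i) ^ m i), ← zpow_natCast (_ ^ m i), zpow_comm, zpow_comm _ (m i), zpow_natCast,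
      zpow_natCast, this]
    rfl
  have hpow : ∀ (k : ℕ) (i : Fin n), ((gU σ)^[k] (θ i)) ^ h = ev θ (((Matrix.of A) ^ k) i) ^ h := by
    intro k i
    induction k with
    | zero =>
      rw [Function.iterate_zero, id, pow_zero]
      congr 1
      unfold ev
      rw [Finset.prod_eq_single i]
      · rw [Matrix.one_apply_eq, zpow_one]
      · intro j _ hj
        rw [Matrix.one_apply_ne (Ne.symm hj), zpow_zero]
      · intro h; exact absurd (mem_univ i) h
    | succ k ih =>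
      rw [Function.iterate_succ_apply', ← map_pow, ih, map_pow, hstep, pow_succ]
      rfl
  have hsum0 : ∑ k ∈ range p, (Matrix.of A) ^ k = 0 := by
    ext i j
    have h1 : ∏ k ∈ range p, (gU σ)^[k] (θ i) = 1 := by
      apply unit_ext
      rw [coe_prod', Finset.prod_congr rfl fun k _ => gU_iter σ k (θ i), ← norm_eq hK.deg hσ, hθN i, map_one]
      simp
    have h2 : ev θ (∑ k ∈ range p, ((Matrix.of A) ^ k) i) ^ h = ev θ 0 ^ h := by
      rw [ev_sum, ← Finset.prod_pow, ← Finset.prod_congr rfl fun k _ => hpow k i, Finset.prod_pow, h1]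
      simp [ev]
    have h3 := ev_inj hθind hh h2
    rw [Matrix.sum_apply]
    have h4 := congrFun h3 j
    rw [Finset.sum_apply] at h4
    exact h4
  set B : Matrix (Fin n) (Fin n) ℤ := Matrix.of A - 1 with hB
  have hsumB : ∑ i ∈ range p, (1 + B) ^ i = 0 := by
    have : (1 : Matrix (Fin n) (Fin n) ℤ) + B = Matrix.of A := by rw [hB]; abel
    rw [this, hsum0]
  -- the saturated module
  have hstab : ∀ x ∈ RelS (p := p) J θ, Matrix.vecMul x (B.map (Int.cast : ℤ → ℤ_[p])) ∈ RelS (p := p) J θ := by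
    intro x hx
    have hx' := hx
    obtain ⟨c, hc, h1⟩ := hx
    have h2 := rel_pow (A := Matrix.of A) hA' (rel_conj σ I h1)
    have h3 : Matrix.vecMul x ((Matrix.of A).map (Int.cast : ℤ → ℤ_[p])) ∈ RelS (p := p) J θ := by
      refine ⟨h * c, mul_ne_zero hh.ne' hc, ?_⟩
      rw [Matrix.smul_vecMul, smul_smul] at h2
      rw [Nat.cast_mul]
      exact h2
    have h4 : B.map (Int.cast : ℤ → ℤ_[p]) = (Matrix.of A).map (Int.cast : ℤ → ℤ_[p]) - 1 := by
      ext i j
      rw [hB]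
      by_cases hij : i = j
      · subst hij; simp
      · simp [Matrix.one_apply_ne hij]
    rw [h4, Matrix.vecMul_sub, Matrix.vecMul_one]
    exact Submodule.sub_mem _ h3 hx'
  have hsat : ∀ x : Fin n → ℤ_[p], (p : ℤ_[p]) • x ∈ RelS (p := p) J θ → x ∈ RelS (p := p) J θ := by
    rintro x ⟨c, hc, h1⟩
    refine ⟨c * p, mul_ne_zero hc hp.out.ne_zero, ?_⟩
    rw [smul_smul] at h1
    rw [Nat.cast_mul]
    exact h1
  have hne : RelS (p := p) J θ ≠ ⊥ := by
    intro hbot
    have h1 : a ∈ RelS (p := p) J θ := ⟨1, one_ne_zero, by rw [Nat.cast_one, one_smul]; exact hRel⟩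
    rw [hbot, Submodule.mem_bot] at h1
    exact ha h1
  obtain ⟨⟨x, hxR, hxB⟩, Q, hQ⟩ := hLA p n B hsumB (RelS (p := p) J θ) hstab hsat hne
  choose W hW using fun i => exists_rep (x i)
  choose Y hY using hW
  refine ⟨ev θ W, (hν _).2 (hevN W), ?_, ?_⟩
  · -- independence
    intro η j hη heq
    obtain ⟨c, hc⟩ := hgen η hη
    have hc' : η ^ h = ev θ c ^ h := hc
    have h1 : (ev θ W * η) ^ p = (gU σ η) ^ p := by
      apply unit_ext
      rw [coe_pow', coe_pow', coe_mul', heq, gU_coe, mul_pow, ← pow_mul, mul_comm j p, pow_mul, ← map_pow,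
        hζ.pow_eq_one, map_one, one_pow, one_mul]
    have h2 : ev θ (W + c) ^ (h * p) = ev θ (Matrix.vecMul c (Matrix.of A)) ^ (h * p) := by
      rw [pow_mul, pow_mul, ← hstep c, ev_add, mul_pow, ← hc', ← map_pow, ← hc', map_pow, ← mul_pow, ← pow_mul,
        ← pow_mul, mul_comm h p, pow_mul, pow_mul, h1]
    have h3 := ev_inj hθind (Nat.mul_pos hh hp.out.pos) h2
    apply hxB ((fun i => (c i : ℤ_[p])) + Matrix.vecMul Y (Q.map (Int.cast : ℤ → ℤ_[p])))
    have h4 : (B.map (Int.cast : ℤ → ℤ_[p])) = (B.map (Int.castRingHom ℤ_[p])) := rfl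
    have h5 : Matrix.vecMul (fun i => (c i : ℤ_[p])) (B.map (Int.cast : ℤ → ℤ_[p])) = fun i => ((W i : ℤ) : ℤ_[p]) := by
      have h6 : Matrix.vecMul c B = W := by
        rw [hB, Matrix.vecMul_sub, Matrix.vecMul_one, ← h3]; abel
      funext i
      rw [← h6]
      show ∑ j, (c j : ℤ_[p]) * (B j i : ℤ_[p]) = ((∑ j, c j * B j i : ℤ) : ℤ_[p])
      push_cast
      rfl
    have h6 : (Q.map (Int.cast : ℤ → ℤ_[p])) * (B.map (Int.cast : ℤ → ℤ_[p])) =
        (p : Matrix (Fin n) (Fin n) ℤ_[p]) := by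
      have h7 := congrArg (fun M : Matrix (Fin n) (Fin n) ℤ => M.map (Int.castRingHom ℤ_[p])) hQ
      simp only [Matrix.map_mul] at h7
      have h8 : (p : Matrix (Fin n) (Fin n) ℤ).map (Int.castRingHom ℤ_[p]) = (p : Matrix (Fin n) (Fin n) ℤ_[p]) := by
        exact map_natCast (Int.castRingHom ℤ_[p]).mapMatrix p
      rw [h8] at h7
      exact h7
    rw [Matrix.add_vecMul, Matrix.vecMul_vecMul, h6, h5]
    funext i
    have h9 : Matrix.vecMul Y (p : Matrix (Fin n) (Fin n) ℤ_[p]) = (p : ℤ_[p]) • Y := by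
      have : (p : Matrix (Fin n) (Fin n) ℤ_[p]) = (p : ℤ_[p]) • (1 : Matrix (Fin n) (Fin n) ℤ_[p]) := by
        rw [Matrix.smul_one_eq_diagonal]
        rfl
      rw [this, Matrix.vecMul_smul, Matrix.vecMul_one]
    rw [h9, Pi.add_apply, Pi.smul_apply, smul_eq_mul]
    linear_combination hY i
  · -- almost torsion
    obtain ⟨c, hc, hcR⟩ := hxR
    have hc0 : (c : ℤ_[p]) ≠ 0 := by exact_mod_cast hc
    set M := (c : ℤ_[p]).valuation with hM
    have hrel : Rel p L J θ ((p : ℤ_[p]) ^ M • x) := by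
      have h1 := PadicInt.unitCoeff_spec hc0
      have h2 : (p : ℤ_[p]) ^ M • x = (((PadicInt.unitCoeff hc0)⁻¹ : ℤ_[p]ˣ) : ℤ_[p]) • ((c : ℤ_[p]) • x) := by
        rw [smul_smul]
        congr 1
        calc (p : ℤ_[p]) ^ M = (((PadicInt.unitCoeff hc0)⁻¹ : ℤ_[p]ˣ) : ℤ_[p]) *
              ((PadicInt.unitCoeff hc0 : ℤ_[p]) * (p : ℤ_[p]) ^ M) := by rw [← mul_assoc, Units.inv_mul, one_mul]
          _ = _ := congrArg _ h1.symm
      rw [h2]
      exact rel_smul hcR _
    refine ⟨M, fun N => ?_⟩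
    obtain ⟨m, hm1, hm2⟩ := hrel
    have hev : ∀ᶠ k in atTop, ∀ i, ‖((m k i : ℤ) : ℤ_[p]) - ((p : ℤ_[p]) ^ M • x) i‖ < (p : ℝ) ^ (-(M : ℤ)) := by
      rw [Filter.eventually_all]
      intro i
      have hp0 : (0 : ℝ) < p := by exact_mod_cast hp.out.pos
      have := (Metric.tendsto_nhds.1 (hm1 i)) ((p : ℝ) ^ (-(M : ℤ))) (by positivity)
      filter_upwards [this] with k hk
      rwa [dist_eq_norm] at hk
    obtain ⟨k, hk1, hk2⟩ := (hev.and (hm2 N)).exists
    have hex : ∀ i, ∃ n' : ℤ, m k i = (p : ℤ) ^ M * (W i + p * n') := by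
      intro i
      obtain ⟨y, hy⟩ := near_dvd (hk1 i)
      have h1 : ((m k i - (p : ℤ) ^ M * W i : ℤ) : ℤ_[p]) = (p : ℤ_[p]) ^ (M + 1) * (y + Y i) := by
        rw [Pi.smul_apply, smul_eq_mul] at hy
        have h2 : x i = W i + p * Y i := by linear_combination hY i
        rw [h2] at hy
        push_cast
        linear_combination hy
      obtain ⟨n', hn'⟩ := dvd_int (m := M + 1) ⟨_, h1⟩
      refine ⟨n', ?_⟩
      have : m k i = (p : ℤ) ^ M * W i + (p : ℤ) ^ (M + 1) * n' := by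
        linear_combination hn'
      rw [this]
      ring
    choose n' hn' using hex
    refine ⟨ev θ n', (hν _).2 (hevN n'), ?_⟩
    have e : (ev θ W * ev θ n' ^ p) ^ p ^ M = ev θ (m k) := by
      have h1 : m k = ((p ^ M : ℕ) : ℤ) • (W + (p : ℤ) • n') := by
        funext i
        rw [hn' i]
        simp
      rw [h1, ev_smul, ev_add, ev_smul, zpow_natCast, zpow_natCast]
    rw [e]
    exact hk2

end Pool.Agent.Q129.LK
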